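import Pool.Agent.H5.Scene

set_option autoImplicit false

namespace Pool.Agent.Results.MP_b5aa09_co.Counter

open Pool.Agent.H5.SceneDefs

theorem result : ∃ (n m : ℕ) (I : Finset (Fin n × Fin m)) (E : Finset (Sym2 (Fin n))),
    (∀ e ∈ E, ¬ e.IsDiag) ∧
    (∃ s : Coords (Fin n) (Fin m), Realises s I ∧ IndepAt s ∅ I) ∧
    CountHolds E I ∧
    ∀ s : Coords (Fin n) (Fin m), Realises s I → ¬ IndepAt s E I :=
  ⟨9, 6, H5.Scene.I0, H5.Scene.E0, by decide, ⟨_, H5.Scene.real1, H5.Scene.indep1⟩,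
    H5.Scene.count, H5.Scene.dependent⟩

end Pool.Agent.Results.MP_b5aa09_co.Counter
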